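import Pool.Agent.GT.StmtsE
import Pool.Agent.GT.StmtsD

set_option autoImplicit false

namespace Pool.Agent.GT.OF.H63

open Polynomial Pool.Agent.NJ Pool.Agent.GT.D

theorem e_clx (dvl : DvlStmt) (add : AddStmt) (val : ValStmt) (exp : ExpStmt) (rcp : RcpStmt)
    (goo : GooStmt) : ClxStmt := by
  classical
  intro ι _ _ P r bl m st p h N hN hw x w ht l i
  obtain ⟨_, hD2, _, hD4⟩ := dvl ι P r bl m st p h N hN hw
  obtain ⟨rcp1, rcp2, _⟩ := rcp
  obtain ⟨_, _, val3, val4, _⟩ := val
  set D := Dn P bl m st p with hD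
  set n := Xc (rt 1 D) x w i with hn
  have hn0 : n ≠ 0 := ht.ne i
  have hpl2 : ∀ l, p l ≠ 2 := by
    intro l h2
    have := hw.m8 l
    rw [h2] at this
    omega
  have hpP : ∀ l, ¬ (p l : ℤ) ∣ 2 * P 0 * P 1 * P 2 := by
    intro l hd
    have hpr : Prime (p l : ℤ) := Nat.prime_iff_prime_int.mp (hw.pr l)
    rcases hpr.dvd_or_dvd hd with h1 | h1
    · rcases hpr.dvd_or_dvd h1 with h2 | h2
      · rcases hpr.dvd_or_dvd h2 with h3 | h3
        · have h4 : (p l) ∣ 2 := by exact_mod_cast h3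
          exact hpl2 l ((Nat.prime_dvd_prime_iff_eq (hw.pr l) Nat.prime_two).mp h4)
        · exact hw.nd l 0 h3
      · exact hw.nd l 1 h2
    · exact hw.nd l 2 h1
  have hP0 : 2 * P 0 * P 1 * P 2 ≠ 0 :=
    mul_ne_zero (mul_ne_zero (mul_ne_zero two_ne_zero (hw.P0 0)) (hw.P0 1)) (hw.P0 2)
  set A : Finset ℕ := (2 * P 0 * P 1 * P 2).natAbs.primeFactors with hA
  have memA : ∀ q : ℕ, q ∈ A ↔ q.Prime ∧ (q : ℤ) ∣ 2 * P 0 * P 1 * P 2 := by
    intro q
    rw [hA, Nat.mem_primeFactors]
    constructor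
    · rintro ⟨h1, h2, _⟩
      exact ⟨h1, Int.natCast_dvd.mpr h2⟩
    · rintro ⟨h1, h2⟩
      exact ⟨h1, Int.natCast_dvd.mp h2, Int.natAbs_ne_zero.mpr hP0⟩
  set B : Finset ℕ := Finset.univ.image p with hB
  have memB : ∀ q : ℕ, q ∈ B ↔ ∃ l, p l = q := by
    intro q
    simp [hB]
  have hdisj : Disjoint A B := by
    rw [Finset.disjoint_left]
    intro q hqA hqB
    obtain ⟨l', rfl⟩ := (memB q).mp hqB
    exact hpP l' ((memA _).mp hqA).2
  -- the expansion
  have hf : Adf (ul (p l)) := add.2.1 (p l) (hw.pr l) (hpl2 l)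
  have hprime : ∀ q ∈ A ∪ B, q.Prime := by
    intro q hq
    rcases Finset.mem_union.mp hq with h1 | h1
    · exact ((memA q).mp h1).1
    · obtain ⟨l', rfl⟩ := (memB q).mp h1
      exact hw.pr l'
  have hout : ∀ q : ℕ, q.Prime → q ∉ A ∪ B → vl q n = 0 := by
    intro q hq hqn
    have h1 : ¬ (q : ℤ) ∣ 2 * P 0 * P 1 * P 2 := fun hd =>
      hqn (Finset.mem_union_left _ ((memA q).mpr ⟨hq, hd⟩))
    have h2 : ∀ l', q ≠ p l' := fun l' he =>
      hqn (Finset.mem_union_right _ ((memB q).mpr ⟨l', he.symm⟩))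
    have h3 := hD4 q hq h1 h2
    refine goo (rt 1 D) x w q ht hq ?_ i
    have hs : D 0 + D 1 + D 2 = 0 := hw.sum
    have e12 : ∀ j : Fin 3, ¬ (q : ℤ) ∣ rt 1 D (j + 1) - rt 1 D (j + 2) := by
      intro j hd
      rw [(rt_sub hs j).2.2, one_mul] at hd
      exact h3 j hd
    have e21 : ∀ j : Fin 3, ¬ (q : ℤ) ∣ rt 1 D (j + 2) - rt 1 D (j + 1) := by
      intro j hd
      refine e12 j ?_
      rw [← neg_sub]
      exact (dvd_neg).mpr hd
    intro a b hab
    fin_cases a <;> fin_cases b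
    · exact absurd rfl hab
    · exact e12 2
    · exact e21 1
    · exact e21 2
    · exact absurd rfl hab
    · exact e12 0
    · exact e12 1
    · exact e21 0
    · exact absurd rfl hab
  have key := exp (ul (p l)) hf n hn0 (A ∪ B) hprime hout
  rw [(rcp1 (p l) (hw.pr l) (hw.m8 l)).1, mul_zero, zero_add, Finset.sum_union hdisj] at key
  -- the primes of `A`
  have hrA : r ∈ A := by
    refine (memA r).mpr ⟨hw.rp, ?_⟩
    exact dvd_mul_of_dvd_right (hw.rd 2).1 _
  have hprn : p l ≠ r := by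
    intro he
    refine hw.nd l 0 ?_
    rw [he]
    exact (hw.rd 0).1
  have hAsum : ∑ q ∈ A, vl q n * ul (p l) q = vl r n := by
    rw [Finset.sum_eq_single r]
    · rw [rcp2 (p l) r (hw.pr l) hw.rp (hw.m8 l) hw.r2 hprn, hw.ur l, mul_one]
    · intro q hq hqr
      obtain ⟨hqp, hqd⟩ := (memA q).mp hq
      have hz : ul (p l) (q : ℤ) = 0 := by
        by_cases hq2 : q = 2
        · subst hq2
          exact (rcp1 (p l) (hw.pr l) (hw.m8 l)).2
        · have hne : p l ≠ q := by
            intro he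
            exact hpP l (he ▸ hqd)
          rw [rcp2 (p l) q (hw.pr l) hqp (hw.m8 l) hq2 hne]
          have hc := hw.cl l q hqp hqr hqd
          have hc1 : (q : ℤ) ∣ (p l : ℤ) - 1 := (dvd_pow_self _ (by omega)).trans hc
          have hnd : ¬ (q : ℤ) ∣ (p l : ℤ) := by
            intro hd
            have h5 : (q : ℤ) ∣ 1 := by
              have h6 := dvd_sub hd hc1
              rwa [sub_sub_cancel] at h6
            exact (Nat.prime_iff_prime_int.mp hqp).not_isUnit (isUnit_of_dvd_one h5)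
          refine (val3 q (p l) hqp hq2 hnd).1 ?_
          have h7 : (((p l : ℕ) : ℤ) : ZMod q) = ((1 : ℤ) : ZMod q) := by
            rw [ZMod.intCast_eq_intCast_iff_dvd_sub]
            have h8 := (dvd_neg).mpr hc1
            rwa [neg_sub] at h8
          rw [h7, Int.cast_one]
          exact IsSquare.one
      rw [hz, mul_zero]
    · intro hr
      exact absurd hrA hr
  -- the new primes
  have hBsum : ∑ q ∈ B, vl q n * ul (p l) q = h * (∑ l', vl (p l') n) + h * vl (p l) n := by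
    rw [hB, Finset.sum_image (fun a _ b _ hab => hw.inj hab)]
    have h1 : ∀ l' : ι, vl (p l') n * ul (p l) (p l') =
        h * vl (p l') n + (if l' = l then h * vl (p l) n else 0) := by
      intro l'
      by_cases hl : l' = l
      · subst hl
        rw [if_pos rfl, val4 (p l') (hw.pr l') (hpl2 l'), mul_zero]
        exact (CharTwo.add_self_eq_zero _).symm
      · rw [if_neg hl, add_zero, hw.mu l l' (fun h2 => hl h2.symm), mul_comm]
    rw [Finset.sum_congr rfl fun l' _ => h1 l', Finset.sum_add_distrib, ← Finset.mul_sum,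
      Finset.sum_ite_eq' Finset.univ l, if_pos (Finset.mem_univ l)]
  rw [hAsum, hBsum] at key
  rw [key, zz, add_assoc]

end Pool.Agent.GT.OF.H63
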